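import Mathlib
import Pool.Agent.Lib.MP_8c048d_lc.Final
import Pool.Agent.Lib.MP_8c048d_lc.Exists

/-!
# The Lindenbaum algebra of the theory of prime models does not have characteristic `Π¹₁`

The definitions are in `Pool/Agent/Lib/MP_8c048d_lc/Defs.lean`:
`IsPi11Universal ν` (`(B, ν)` is a `Π¹₁`-universal numerated Boolean algebra), `IsPrimeModel L M`,
`thP L` (the set of all sentences true in all prime models of the signature `L`), `Lind T` (the
Lindenbaum algebra of the theory `T`: sentences modulo provable equivalence over `T`, ordered by
provable implication over `T`).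
-/

set_option autoImplicit false

open FirstOrder Pool.Agent.Lib.MP_8c048d_lc

namespace Pool.Agent.Results.MP_8c048d_lc.NotUniversal

/-- A `Π¹₁`-universal numerated Boolean algebra exists, and for every finite signature `L` the
Lindenbaum algebra of the theory of all prime models of `L` is not isomorphic to the underlying
Boolean algebra of any `Π¹₁`-universal numerated Boolean algebra. -/
theorem result :
    (∃ (B : Type) (_ : BooleanAlgebra B) (ν : ℕ → B), IsPi11Universal ν) ∧
    ∀ (L : FirstOrder.Language.{0, 0}) [Finite (Σ n, L.Relations n)]
      [Finite (Σ n, L.Functions n)] (B : Type) [BooleanAlgebra B] (ν : ℕ → B),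
      IsPi11Universal ν → IsEmpty (Lind (thP L) ≃o B) :=
  ⟨exists_universal, fun L _ _ B _ ν hν => lind_not_universal L B ν hν⟩

end Pool.Agent.Results.MP_8c048d_lc.NotUniversal
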